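import Mathlib
import Pool.Agent.Helper60.SB.Defs3

/-!
Module U5: the Sudakov inequality, deduced from the dual Sudakov inequality.
-/

open Finset MeasureTheory
open scoped ENNReal Real

namespace Pool.Agent.Helper71.SB

open Pool.Agent.Helper60.SB

/-! ### seminorms on `ι → ℝ` and the Gaussian measure -/

section Gauss

variable {ι : Type} [Fintype ι]

instance : IsProbabilityMeasure (gau ι) := by
  unfold gau; infer_instance

lemma seminorm_le_sum (q : Seminorm ℝ (ι → ℝ)) :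
    ∃ b : ι → ℝ, (∀ i, 0 ≤ b i) ∧ ∀ y : ι → ℝ, q y ≤ ∑ i, |y i| * b i := by
  classical
  refine ⟨fun i => q (Pi.single i 1), fun i => apply_nonneg _ _, fun y => ?_⟩
  have h : y = ∑ i, y i • (Pi.single i (1 : ℝ) : ι → ℝ) := by
    ext j
    simp [Finset.sum_apply, Pi.single_apply]
  calc q y = q (∑ i, y i • (Pi.single i (1 : ℝ) : ι → ℝ)) := by rw [← h]
    _ ≤ ∑ i, q (y i • (Pi.single i (1 : ℝ) : ι → ℝ)) := by
        have := Finset.le_sum_of_subadditive (q : (ι → ℝ) → ℝ) (map_zero q).le (map_add_le_add q)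
          Finset.univ (fun i => y i • (Pi.single i (1 : ℝ) : ι → ℝ))
        exact this
    _ = ∑ i, |y i| * q (Pi.single i 1) := by
        refine Finset.sum_congr rfl fun i _ => ?_
        rw [map_smul_eq_mul, Real.norm_eq_abs]

lemma seminorm_continuous (q : Seminorm ℝ (ι → ℝ)) : Continuous q := by
  obtain ⟨b, hb, hq⟩ := seminorm_le_sum q
  have hB : 0 ≤ ∑ i, b i := Finset.sum_nonneg fun i _ => hb i
  refine Seminorm.continuous (r := 1) ?_
  rw [Metric.mem_nhds_iff]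
  refine ⟨1 / (∑ i, b i + 1), by positivity, fun y hy => ?_⟩
  rw [Metric.mem_ball, dist_zero_right] at hy
  rw [Seminorm.mem_ball, sub_zero]
  have h1 : ∑ i, |y i| * b i ≤ ∑ i, ‖y‖ * b i :=
    Finset.sum_le_sum fun i _ => mul_le_mul_of_nonneg_right (norm_le_pi_norm y i) (hb i)
  rw [← Finset.mul_sum] at h1
  have h2 : ‖y‖ * ∑ i, b i ≤ (1 / (∑ i, b i + 1)) * ∑ i, b i :=
    mul_le_mul_of_nonneg_right hy.le hB
  have h3 : (1 / (∑ i, b i + 1)) * ∑ i, b i < 1 := by
    rw [one_div, inv_mul_lt_iff₀ (by positivity)]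
    linarith
  linarith [hq y]

lemma integrable_coord (i : ι) : Integrable (fun y : ι → ℝ => y i) (gau ι) := by
  have h : MeasurePreserving (fun y : ι → ℝ => y i) (gau ι)
      (ProbabilityTheory.gaussianReal 0 1) := by
    unfold gau
    exact measurePreserving_eval _ i
  have h2 : Integrable (id : ℝ → ℝ) (ProbabilityTheory.gaussianReal 0 1) :=
    memLp_one_iff_integrable.1 (ProbabilityTheory.memLp_id_gaussianReal 1)
  exact h.integrable_comp_of_integrable h2

lemma integrable_seminorm (q : Seminorm ℝ (ι → ℝ)) : Integrable (fun y => q y) (gau ι) := by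
  obtain ⟨b, hb, hq⟩ := seminorm_le_sum q
  have h : Integrable (fun y : ι → ℝ => ∑ i, |y i| * b i) (gau ι) :=
    integrable_finsetSum _ fun i _ => ((integrable_coord i).abs).mul_const _
  refine h.mono' (seminorm_continuous q).aestronglyMeasurable (ae_of_all _ fun y => ?_)
  rw [Real.norm_of_nonneg (apply_nonneg q y)]
  exact hq y

/-- the characteristic function of the standard Gaussian measure -/
lemma integral_cos (y : ι → ℝ) (t : ℝ) :
    ∫ z, Real.cos (t * ∑ i, y i * z i) ∂(gau ι) = Real.exp (-(t ^ 2 * ∑ i, y i ^ 2) / 2) := by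
  have h1 : ∫ z : ι → ℝ, ∏ i, Complex.exp (((t * y i : ℝ) : ℂ) * (z i : ℂ) * Complex.I) ∂(gau ι) =
      ∏ i, ∫ x : ℝ, Complex.exp (((t * y i : ℝ) : ℂ) * (x : ℂ) * Complex.I)
        ∂(ProbabilityTheory.gaussianReal 0 1) :=
    integral_fintype_prod_eq_prod (𝕜 := ℂ)
      (fun i (x : ℝ) => Complex.exp (((t * y i : ℝ) : ℂ) * (x : ℂ) * Complex.I))
  have h2 : ∀ i, ∫ x : ℝ, Complex.exp (((t * y i : ℝ) : ℂ) * (x : ℂ) * Complex.I)
        ∂(ProbabilityTheory.gaussianReal 0 1) =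
      ((Real.exp (-(t ^ 2 * y i ^ 2) / 2) : ℝ) : ℂ) := by
    intro i
    rw [← charFun_apply_real, ProbabilityTheory.charFun_gaussianReal]
    push_cast
    congr 1
    simp
    ring
  have h3 : ∀ z : ι → ℝ, ∏ i, Complex.exp (((t * y i : ℝ) : ℂ) * (z i : ℂ) * Complex.I) =
      Complex.exp (((t * ∑ i, y i * z i : ℝ) : ℂ) * Complex.I) := by
    intro z
    rw [← Complex.exp_sum]
    congr 1
    push_cast
    rw [Finset.mul_sum, Finset.sum_mul]
    exact Finset.sum_congr rfl fun i _ => by ring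
  simp_rw [h2, h3] at h1
  have h4 : ∀ z : ι → ℝ, Real.cos (t * ∑ i, y i * z i) =
      (Complex.exp (((t * ∑ i, y i * z i : ℝ) : ℂ) * Complex.I)).re := by
    intro z
    rw [Complex.exp_ofReal_mul_I_re]
  simp_rw [h4]
  have hint : Integrable (fun z : ι → ℝ =>
      Complex.exp (((t * ∑ i, y i * z i : ℝ) : ℂ) * Complex.I)) (gau ι) := by
    refine Integrable.of_bound (C := 1) ?_ (ae_of_all _ fun z => ?_)
    · refine Continuous.aestronglyMeasurable ?_
      fun_prop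
    · rw [Complex.norm_exp_ofReal_mul_I]
  have h5 := integral_re hint
  simp only [RCLike.re_to_complex] at h5
  rw [h5, h1, ← Complex.ofReal_prod, Complex.ofReal_re, ← Real.exp_sum]
  congr 1
  rw [Finset.mul_sum, neg_div, Finset.sum_div, ← Finset.sum_neg_distrib]
  exact Finset.sum_congr rfl fun i _ => by ring

lemma one_sub_cos_le_abs (u : ℝ) : 1 - Real.cos u ≤ |u| := by
  rcases le_or_gt |u| 2 with h | h
  · have h1 := Real.one_sub_sq_div_two_le_cos (x := u)
    have h2 : u ^ 2 ≤ 2 * |u| := by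
      rw [← sq_abs]
      nlinarith [abs_nonneg u]
    linarith
  · linarith [Real.neg_one_le_cos u]

/-- elements of the polar of `q` have norm at most `√6 l` -/
lemma norm_polar (q : Seminorm ℝ (ι → ℝ)) (l : ℝ) (hl : 0 < l)
    (hq : ∫ y, q y ∂(gau ι) ≤ l) (y : ι → ℝ) (hy : ∀ z : ι → ℝ, ∑ i, y i * z i ≤ q z) :
    ∑ i, y i ^ 2 ≤ 6 * l ^ 2 := by
  have habs : ∀ z : ι → ℝ, |∑ i, y i * z i| ≤ q z := by
    intro z
    rw [abs_le]
    constructor
    · have h := hy (-z)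
      rw [map_neg_eq_map] at h
      simp only [Pi.neg_apply, mul_neg, Finset.sum_neg_distrib] at h
      linarith
    · exact hy z
  set t : ℝ := 1 / (2 * l) with ht
  have htpos : 0 < t := by positivity
  have h1 : ∀ z : ι → ℝ, 1 - t * q z ≤ Real.cos (t * ∑ i, y i * z i) := by
    intro z
    have h := one_sub_cos_le_abs (t * ∑ i, y i * z i)
    rw [abs_mul, abs_of_pos htpos] at h
    have := mul_le_mul_of_nonneg_left (habs z) htpos.le
    linarith
  have hi1 : Integrable (fun z => 1 - t * q z) (gau ι) :=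
    (integrable_const 1).sub ((integrable_seminorm q).const_mul t)
  have hi2 : Integrable (fun z : ι → ℝ => Real.cos (t * ∑ i, y i * z i)) (gau ι) := by
    refine Integrable.of_bound (C := 1) ?_ (ae_of_all _ fun z => ?_)
    · exact Continuous.aestronglyMeasurable (by fun_prop)
    · rw [Real.norm_eq_abs]; exact Real.abs_cos_le_one _
  have h2 := integral_mono hi1 hi2 h1
  rw [integral_cos, integral_sub (integrable_const 1) ((integrable_seminorm q).const_mul t),
    integral_const_mul, integral_const, probReal_univ, one_smul] at h2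
  have h3 : t * ∫ z, q z ∂(gau ι) ≤ 1 / 2 := by
    have h := mul_le_mul_of_nonneg_left hq htpos.le
    have h' : t * l = 1 / 2 := by rw [ht]; field_simp
    linarith
  have h4 : (1 : ℝ) / 2 ≤ Real.exp (-(t ^ 2 * ∑ i, y i ^ 2) / 2) := by linarith
  have h5 := Real.log_le_log (by norm_num) h4
  rw [Real.log_exp, Real.log_div one_ne_zero two_ne_zero, Real.log_one, zero_sub] at h5
  have h6 := Real.log_two_lt_d9
  have h7 : t ^ 2 * ∑ i, y i ^ 2 ≤ 1.5 := by linarith
  rw [ht] at h7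
  have h8 : (1 / (2 * l)) ^ 2 * ∑ i, y i ^ 2 = (∑ i, y i ^ 2) / (4 * l ^ 2) := by
    field_simp
    ring
  rw [h8, div_le_iff₀ (by positivity)] at h7
  linarith

end Gauss

/-! ### maximal separated sets -/

/-- a separated set -/
def Sep {V : Type*} (R : V → V → Prop) (t : Finset V) : Prop :=
  ∀ a ∈ t, ∀ b ∈ t, a ≠ b → ¬ R a b

lemma exists_net {V : Type*} (R : V → V → Prop) (hr : ∀ a, R a a) (hs : ∀ a b, R a b → R b a)
    (S : Set V) (M : ℝ) (h : ∀ t : Finset V, (∀ a ∈ t, a ∈ S) → Sep R t → (t.card : ℝ) ≤ M) :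
    ∃ t : Finset V, (∀ a ∈ t, a ∈ S) ∧ Sep R t ∧ ∀ a ∈ S, ∃ y ∈ t, R a y := by
  classical
  let N : Set ℕ := {n | ∃ t : Finset V, (∀ a ∈ t, a ∈ S) ∧ Sep R t ∧ t.card = n}
  have hne : N.Nonempty := ⟨0, ∅, by simp, by intro a ha; simp at ha, rfl⟩
  have hb : BddAbove N := by
    refine ⟨⌊M⌋₊, ?_⟩
    rintro n ⟨t, ht, ht', rfl⟩
    exact Nat.le_floor (h t ht ht')
  obtain ⟨t, ht, ht', hcard⟩ := Nat.sSup_mem hne hb
  refine ⟨t, ht, ht', fun a ha => ?_⟩
  by_contra hcon
  push Not at hcon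
  have hat : a ∉ t := fun h' => hcon a h' (hr a)
  have hmem : t.card + 1 ∈ N := by
    refine ⟨insert a t, ?_, ?_, Finset.card_insert_of_notMem hat⟩
    · intro b hb'
      rcases Finset.mem_insert.1 hb' with rfl | hb'
      · exact ha
      · exact ht b hb'
    · intro b hb1 c hc1 hbc hR
      rcases Finset.mem_insert.1 hb1 with h1 | hb2
      · rcases Finset.mem_insert.1 hc1 with h2 | hc2
        · exact hbc (h1.trans h2.symm)
        · rw [h1] at hR
          exact hcon c hc2 hR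
      · rcases Finset.mem_insert.1 hc1 with h2 | hc2
        · rw [h2] at hR
          exact hcon b hb2 (hs _ _ hR)
        · exact ht' b hb2 c hc2 hbc hR
  have := le_csSup hb hmem
  omega

lemma eucl_refl {ι : Type*} [Fintype ι] (ε : ℝ) (a : ι → ℝ) : eucl ε a a := by
  unfold eucl
  simp
  positivity

lemma eucl_symm {ι : Type*} [Fintype ι] (ε : ℝ) (a b : ι → ℝ) (h : eucl ε a b) : eucl ε b a := by
  unfold eucl at h ⊢
  refine le_trans (le_of_eq ?_) h
  exact Finset.sum_congr rfl fun i _ => by ring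

/-! ### the main induction -/

section Main

variable {ι : Type} [Fintype ι]

/-- the polar of `q` -/
def polar (q : Seminorm ℝ (ι → ℝ)) : Set (ι → ℝ) := {y | ∀ z : ι → ℝ, ∑ i, y i * z i ≤ q z}

lemma polar_diff (q : Seminorm ℝ (ι → ℝ)) {y y' : ι → ℝ} (hy : y ∈ polar q) (hy' : y' ∈ polar q) :
    ∑ i, (y i - y' i) ^ 2 ≤ 2 * q (y - y') := by
  have h1 := hy (y - y')
  have h2 := hy' (-(y - y'))
  rw [map_neg_eq_map] at h2
  have h3 : ∑ i, (y i - y' i) ^ 2 =
      ∑ i, y i * (y - y') i + ∑ i, y' i * (-(y - y')) i := by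
    rw [← Finset.sum_add_distrib]
    refine Finset.sum_congr rfl fun i _ => ?_
    simp only [Pi.sub_apply, Pi.neg_apply]
    ring
  linarith

/-- one step: from `2ε`-separated sets to `ε`-separated sets -/
lemma step (q : Seminorm ℝ (ι → ℝ)) (l ε A : ℝ) (hε : 0 < ε)
    (hcov : Cov {y : ι → ℝ | ∑ i, y i ^ 2 ≤ 1} (fun a y => q (a - y) ≤ ε / 8)
      (8 * (l / (ε / 8)) ^ 2 + Real.log 2))
    (h2 : ∀ t : Finset (ι → ℝ), (∀ a ∈ t, a ∈ polar q) → Sep (eucl (2 * ε)) t →
      (t.card : ℝ) ≤ Real.exp A)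
    (Y : Finset (ι → ℝ)) (hY : ∀ a ∈ Y, a ∈ polar q) (hsep : Sep (eucl ε) Y) :
    (Y.card : ℝ) ≤ Real.exp (A + (8 * (l / (ε / 8)) ^ 2 + Real.log 2)) := by
  classical
  obtain ⟨X, hX, hXsep, hXnet⟩ := exists_net (eucl (2 * ε)) (eucl_refl _) (eucl_symm _)
    (↑Y : Set (ι → ℝ)) Y.card
    (fun t ht _ => by exact_mod_cast Finset.card_le_card fun a ha => by exact_mod_cast ht a ha)
  have hXcard := h2 X (fun a ha => hY a (by exact_mod_cast hX a ha)) hXsep
  obtain ⟨Z, hZcard, hZ⟩ := hcov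
  -- the scaled difference lies in the unit ball
  have hu : ∀ y ∈ Y, ∃ p : (ι → ℝ) × (ι → ℝ), p.1 ∈ X ∧ p.2 ∈ Z ∧
      q ((1 / (2 * ε)) • (y - p.1) - p.2) ≤ ε / 8 := by
    intro y hy
    obtain ⟨x, hx, hxy⟩ := hXnet y (by exact_mod_cast hy)
    have hball : ∑ i, ((1 / (2 * ε)) • (y - x)) i ^ 2 ≤ 1 := by
      unfold eucl at hxy
      have : ∑ i, ((1 / (2 * ε)) • (y - x)) i ^ 2 = (1 / (2 * ε)) ^ 2 * ∑ i, (y i - x i) ^ 2 := by
        rw [Finset.mul_sum]
        refine Finset.sum_congr rfl fun i _ => ?_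
        simp only [Pi.smul_apply, Pi.sub_apply, smul_eq_mul]
        ring
      rw [this]
      calc (1 / (2 * ε)) ^ 2 * ∑ i, (y i - x i) ^ 2 ≤ (1 / (2 * ε)) ^ 2 * (2 * ε) ^ 2 :=
            mul_le_mul_of_nonneg_left hxy (by positivity)
        _ = 1 := by field_simp
    obtain ⟨z, hz, hqz⟩ := hZ _ hball
    exact ⟨(x, z), hx, hz, hqz⟩
  choose! g hg1 hg2 hg3 using hu
  have hinj : Set.InjOn g (↑Y : Set (ι → ℝ)) := by
    intro y hy y' hy' hgg
    by_contra hne
    have hy := Finset.mem_coe.1 hy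
    have hy' := Finset.mem_coe.1 hy'
    apply hsep y hy y' hy' hne
    have hq1 := hg3 y hy
    have hq2 := hg3 y' hy'
    rw [← hgg] at hq2
    have hq3 : q ((1 / (2 * ε)) • (y - y')) ≤ ε / 4 := by
      have h := map_sub_le_add q ((1 / (2 * ε)) • (y - (g y).1) - (g y).2)
        ((1 / (2 * ε)) • (y' - (g y).1) - (g y).2)
      have h' : (1 / (2 * ε)) • (y - (g y).1) - (g y).2 -
          ((1 / (2 * ε)) • (y' - (g y).1) - (g y).2) = (1 / (2 * ε)) • (y - y') := by
        rw [smul_sub, smul_sub, smul_sub]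
        abel
      rw [h'] at h
      linarith
    rw [map_smul_eq_mul, Real.norm_eq_abs, abs_of_pos (by positivity)] at hq3
    have hq4 : q (y - y') ≤ ε ^ 2 / 2 := by
      rw [one_div, inv_mul_le_iff₀ (by positivity)] at hq3
      calc q (y - y') ≤ 2 * ε * (ε / 4) := hq3
        _ = ε ^ 2 / 2 := by ring
    have := polar_diff q (hY y hy) (hY y' hy')
    unfold eucl
    linarith
  have hmaps : ∀ y ∈ Y, g y ∈ X ×ˢ Z := fun y hy =>
    Finset.mem_product.2 ⟨hg1 y hy, hg2 y hy⟩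
  have hcard := Finset.card_le_card_of_injOn g hmaps hinj
  rw [Finset.card_product] at hcard
  calc (Y.card : ℝ) ≤ ((X.card * Z.card : ℕ) : ℝ) := by exact_mod_cast hcard
    _ = (X.card : ℝ) * Z.card := by push_cast; ring
    _ ≤ Real.exp A * Real.exp (8 * (l / (ε / 8)) ^ 2 + Real.log 2) :=
        mul_le_mul hXcard hZcard (by positivity) (by positivity)
    _ = _ := (Real.exp_add _ _).symm

lemma card_sep (q : Seminorm ℝ (ι → ℝ)) (l : ℝ) (hl : 0 < l) (hq : ∫ y, q y ∂(gau ι) ≤ l)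
    (U1 : ∀ ε : ℝ, 0 < ε →
      Cov {y : ι → ℝ | ∑ i, y i ^ 2 ≤ 1} (fun a y => q (a - y) ≤ ε) (8 * (l / ε) ^ 2 + Real.log 2))
    (n : ℕ) : ∀ ε : ℝ, 0 < ε → 5 * l ≤ 2 ^ n * ε → ∀ Y : Finset (ι → ℝ), (∀ a ∈ Y, a ∈ polar q) →
      Sep (eucl ε) Y → (Y.card : ℝ) ≤ Real.exp (710 * (l / ε) ^ 2) := by
  have hbase : ∀ ε : ℝ, 0 < ε → 5 * l ≤ ε → ∀ Y : Finset (ι → ℝ), (∀ a ∈ Y, a ∈ polar q) →
      Sep (eucl ε) Y → (Y.card : ℝ) ≤ Real.exp (710 * (l / ε) ^ 2) := by
    intro ε hε h5 Y hY hsep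
    have hcard : Y.card ≤ 1 := by
      rw [Finset.card_le_one]
      intro a ha b hb
      by_contra hne
      apply hsep a ha b hb hne
      have h1 := norm_polar q l hl hq a (hY a ha)
      have h2 := norm_polar q l hl hq b (hY b hb)
      unfold eucl
      have h3 : ∑ i, (a i - b i) ^ 2 ≤ 2 * ∑ i, a i ^ 2 + 2 * ∑ i, b i ^ 2 := by
        rw [Finset.mul_sum, Finset.mul_sum, ← Finset.sum_add_distrib]
        exact Finset.sum_le_sum fun i _ => by nlinarith [sq_nonneg (a i + b i)]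
      nlinarith
    calc (Y.card : ℝ) ≤ 1 := by exact_mod_cast hcard
      _ ≤ _ := Real.one_le_exp (by positivity)
  induction n with
  | zero =>
    intro ε hε h5
    exact hbase ε hε (by simpa using h5)
  | succ n ih =>
    intro ε hε h5 Y hY hsep
    rcases le_or_gt (5 * l) ε with h | h
    · exact hbase ε hε h Y hY hsep
    · have hst := step q l ε (710 * (l / (2 * ε)) ^ 2) hε (U1 (ε / 8) (by positivity))
        (ih (2 * ε) (by positivity) (by rw [pow_succ] at h5; linarith)) Y hY hsep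
      refine hst.trans (Real.exp_le_exp.2 ?_)
      have h1 : l / (2 * ε) = (l / ε) / 2 := by field_simp
      have h2 : l / (ε / 8) = 8 * (l / ε) := by field_simp
      have h3 : 1 / 5 ≤ l / ε := by
        rw [div_le_div_iff₀ (by norm_num) hε]
        linarith
      have h4 := Real.log_two_lt_d9
      rw [h1, h2]
      nlinarith

end Main

/-- Sudakov's inequality in dual form, deduced from the dual Sudakov inequality `U1`. -/
theorem sudakov
    (U1 : ∀ (ι : Type) [Fintype ι] (q : Seminorm ℝ (ι → ℝ)) (l : ℝ), 0 < l →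
      ∫ y, q y ∂(gau ι) ≤ l → ∀ ε : ℝ, 0 < ε →
      Cov {y : ι → ℝ | ∑ i, y i ^ 2 ≤ 1} (fun a y => q (a - y) ≤ ε)
        (8 * (l / ε) ^ 2 + Real.log 2)) :
    ∃ C : ℝ, 0 < C ∧ ∀ (ι : Type) [Fintype ι] (q : Seminorm ℝ (ι → ℝ)) (l : ℝ),
    0 < l → ∫ y, q y ∂(gau ι) ≤ l → ∀ ε : ℝ, 0 < ε →
    Cov {y : ι → ℝ | ∀ z : ι → ℝ, ∑ i, y i * z i ≤ q z} (eucl ε) (C * (l / ε) ^ 2) := by
  refine ⟨710, by norm_num, fun ι _ q l hl hq ε hε => ?_⟩
  obtain ⟨n, hn⟩ := pow_unbounded_of_one_lt (5 * l / ε) (one_lt_two)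
  have hn' : 5 * l ≤ 2 ^ n * ε := by
    rw [div_lt_iff₀ hε] at hn
    exact hn.le
  have h := card_sep q l hl hq (U1 ι q l hl hq) n ε hε hn'
  obtain ⟨t, ht, hsep, hnet⟩ := exists_net (eucl ε) (eucl_refl _) (eucl_symm _)
    (polar q) _ h
  exact ⟨t, h t ht hsep, hnet⟩

end Pool.Agent.Helper71.SB
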